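import Pool.Agent.K6.H56.MBI6

/-!
# MP_d967a3_an, Q1: billiard tables of `ℝⁿ`, `n ≥ 3`, which are neither ellipsoids nor bodies of
revolution and whose (inner) billiard map has invariant hypersurfaces

Definitions used by the statement: `Euc`, `IsTable`, `outerNormal`, `IsEllipsoid`, `lines`,
`billiardMap`, `IsInvariantHypersurface` (`Pool/Agent/H703R3/MBDefs.lean`); `wedge`, `level`
(`Pool/Agent/K6/H56/MBI2.lean`); `rot`, `IsBodyOfRevolution` (`Pool/Agent/K6/H56/MBI5.lean`).
-/

set_option autoImplicit false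

open Set Filter Topology
open scoped RealInnerProductSpace ContDiff

namespace Pool.Agent.Results.MP_d967a3_an.InnerHypersurface

open Pool.Agent.H703R3.MB Pool.Agent.K6.H56.MBI

/-- Part 1: for every `n ≥ 3` there is a billiard table in `ℝⁿ`, not an ellipsoid and not a body of
revolution, whose billiard map has an invariant hypersurface in the space of oriented lines; in
fact there are coordinates `i ≠ j` such that for all `c` with `1/2 ≤ |c| < 1` the set of oriented
lines `(p, v)` with `p_i v_j - p_j v_i = c` is such a hypersurface.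

Part 2 (criterion): let `Ω ⊂ ℝⁿ` be a table, `i ≠ j`, `c ≠ 0`, and suppose that at each boundary
point `x` with `x_i² + x_j² ≥ c²` the outer normal `ν` satisfies `x_i ν_j - x_j ν_i = 0` (rotational
symmetry in the `(i, j)`-plane outside the cylinder of radius `|c|`, nothing inside). If some
oriented line meeting the interior has `p_i v_j - p_j v_i = c`, these lines form an invariant
hypersurface. -/
theorem result :
    (∀ n : ℕ, 3 ≤ n → ∃ Ω : Set (Euc n), IsTable Ω ∧ ¬ IsEllipsoid Ω ∧ ¬ IsBodyOfRevolution Ω ∧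
      (∃ S, IsInvariantHypersurface Ω S) ∧
      ∃ i j : Fin n, i ≠ j ∧ ∀ c : ℝ, 1 / 2 ≤ |c| → |c| < 1 →
        IsInvariantHypersurface Ω {l | l ∈ lines Ω ∧ l.1 i * l.2 j - l.1 j * l.2 i = c}) ∧
    (∀ (n : ℕ) (Ω : Set (Euc n)) (i j : Fin n) (c : ℝ), IsTable Ω → i ≠ j → c ≠ 0 →
      (∀ x ∈ frontier Ω, c ^ 2 ≤ x i ^ 2 + x j ^ 2 →
        x i * outerNormal Ω x j - x j * outerNormal Ω x i = 0) →
      (∃ l ∈ lines Ω, l.1 i * l.2 j - l.1 j * l.2 i = c) →
      IsInvariantHypersurface Ω {l | l ∈ lines Ω ∧ l.1 i * l.2 j - l.1 j * l.2 i = c}) := by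
  constructor
  · intro n hn
    set i : Fin n := ⟨0, by omega⟩ with hi
    set j : Fin n := ⟨1, by omega⟩ with hj
    set k : Fin n := ⟨2, by omega⟩ with hk
    have hij : i ≠ j := by simp [hi, hj]
    have hik : i ≠ k := by simp [hi, hk]
    have hjk : j ≠ k := by simp [hj, hk]
    refine ⟨Body (ff k), (strong k).isTable, not_ellipsoid k hij hik hjk,
      not_revolution k hij hik hjk, ⟨_, invariant k hij hik hjk⟩, i, j, hij, ?_⟩
    intro c hc1 hc2
    have hc0 : c ≠ 0 := by
      rintro rfl
      rw [abs_zero] at hc1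
      linarith
    have hcsq : (1 / 2 : ℝ) ^ 2 ≤ c ^ 2 := by
      rw [← sq_abs c]
      nlinarith
    have hcsq2 : c ^ 2 < 1 := by
      rw [← sq_abs c]
      nlinarith [abs_nonneg c]
    refine criterion (strong k).isTable hij hc0 ?_ fun x hx hr =>
      hsym k hij hik hjk x hx (hcsq.trans hr)
    refine ⟨(EuclideanSpace.single i c, EuclideanSpace.single j 1), ⟨?_, ?_, 0, ?_⟩, ?_⟩
    · simp
    · rw [EuclideanSpace.inner_single_right]
      simp [hij.symm]
    · rw [(strong k).interior_body]
      show ff k (_ + (0:ℝ) • _) < 1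
      rw [zero_smul, add_zero]
      have h1 : pert k (EuclideanSpace.single i c) = 0 :=
        (pert_zero k hij hik hjk (x := EuclideanSpace.single i c) (by
          simp [hij.symm]; linarith)).self_of_nhds
      unfold ff
      rw [h1]
      simp only [PiLp.norm_single, mul_zero, add_zero, Real.norm_eq_abs, sq_abs]
      exact hcsq2
    · unfold wedge
      simp [hij, hij.symm]
  · rintro n Ω i j c hK hij hc hsym ⟨l, hl, hl2⟩
    exact criterion hK hij hc ⟨l, hl, hl2⟩ hsym

end Pool.Agent.Results.MP_d967a3_an.InnerHypersurface
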